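import Pool.Agent.N110.IM.Img
import Pool.Agent.N110.IM.Log
import Pool.Agent.N110.RK.Stat
import Pool.Agent.N110.NV.Fin
import Pool.Agent.R887.Exc

/-!
Log canonical pairs whose open part is dominated by an open variety with an abelian group of
birational self-maps, for instance automorphisms.
-/

set_option autoImplicit false

open FF Pool.Agent.W602.GT Pool.Agent.Y172 Pool.Agent.R887 Pool.Agent.N110

/-- Let `X'` be a normal projective variety of dimension `n ≥ 1`, with generic point `y'`, and `D'` a
reduced divisor on `X'` such that `(X', D')` is log canonical and the open part `V' = X' \ D'` has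
canonical singularities (for instance, let `V'` be smooth and `D'` a divisor with normal crossings).
Let `ℤ ^ r` act on `X'` by birational self-maps `f_v`, given by the automorphisms `φ v = f_v^*` of
the function field, which map no prime divisor of `V'` into `D'` (a group of automorphisms of `V'`,
for instance). Let `s ≥ 1` be at most the growth rank: the degrees of `f_v` grow subexponentially
only along the rays of linear subspaces of `ℝ ^ r` of codimension at least `s`. For instance `s = r`
if `deg f_v ≥ c exp (δ |v|)` for some `c, δ > 0`.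

Let `(X, D)` be a log canonical pair such that the open part `V = X \ Supp D` has canonical
singularities, and let the homomorphism `π` of the function fields give a dominant rational map
`X' ⇢ X`, generically finite, which maps no prime divisor of `V'` into `Supp D` (for instance a
dominant morphism from `V'` to `V`). The map has nothing to do with the maps `f_v`. Then
`s ≤ n - 1`, the numerical dimension of `K_X + D` is at most `n - 1 - s`, and so is the Kodaira
dimension (the logarithmic Kodaira dimension of `V`, if `D` is reduced); if the Kodaira dimension is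
at least `n - 1 - s`, then the Kodaira dimension and the numerical dimension of `K_X + D` are equal.
If `s = n - 1`, `K_X + D` is pseudo-effective and the irregularity of `X` is zero, then some multiple
`m (K_X + D)`, `m ≥ 1`, has a section `ω ≠ 0`, the Kodaira dimension is zero and so is the numerical
dimension which is defined by the growth of the number of the sections of `m (K_X + D) + A`. -/
theorem Pool.Agent.Results.MP_a27c81_ag.LogCoveredAbelianRank.result
    {K K' : Type} [Field K] [Algebra ℂ K] [Field K'] [Algebra ℂ K'] {N N' n : ℕ}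
    {y : Fin (N + 1) → K} {y' : Fin (N' + 1) → K'} (hy : NormalModel y) (hy' : NormalModel y')
    (hn : Algebra.trdeg ℂ K = n) (hn' : Algebra.trdeg ℂ K' = n) (hn0 : 0 < n)
    {D' : Place ℂ K' → ℚ} (hD' : Effective y' D')
    (hred' : ∀ P, IsPrimeDivisor y' P → D' P = 0 ∨ D' P = 1) (hlc' : LogCanonical y' n D')
    (hcan' : CanonicalOff y' n D') {r s : ℕ} (hs : 0 < s)
    {φ : (Fin r → ℤ) → (K' ≃ₐ[ℂ] K')} (hφ : ∀ u v, φ (u + v) = φ u * φ v)
    (hV : ∀ v, PreservesOpen (φ v : K' →ₐ[ℂ] K') y' D')
    (hrank : GrowthRankGe φ y' n s ∨ (s = r ∧ ExpGrowth φ y' n))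
    {D : Place ℂ K → ℚ} (hD : Effective y D) (hlc : LogCanonical y n D)
    (hcan : CanonicalOff y n D) (π : K →ₐ[ℂ] K') (hπ : IM.MapsOpen π y D y' D') :
    s < n ∧ NumDimLt y n D (n - s) ∧ ¬ KappaGe y n D (n - s) ∧
      (KappaGe y n D (n - s - 1) → Abundant y n D) ∧
      (s + 1 = n → LogPsef y n D → IrregularityZero y →
        (∃ m : ℕ, 1 ≤ m ∧ ∃ ω : (Fin n → Derivation ℂ K K) → K, ω ≠ 0 ∧
          IsSection y n m (m • D) ω) ∧
        kodairaDim y n D = ((0 : ℕ) : WithBot ℕ) ∧
        ∀ A, Effective y A → Integral y A → numericalDim y n D A = ((0 : ℕ) : EReal)) := by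
  have hrank' : GrowthRankGe φ y' n s := by
    rcases hrank with h | ⟨rfl, h⟩
    · exact h
    · exact RK.growthRank_of_exp h
  obtain ⟨h1, h2'⟩ := RK.rank_main hy' hn' hn0 hD'.2 hs hφ
    (fun v => pullLe_log hy' hn' hred' hlc' hcan' (hV v)) hrank'
  have h2 := IM.numDimLt_img hy hy' hn hn' π
    (IM.imagePullLe_log hy hy' hn hn' hred' hlc hcan hπ) (Nat.sub_le _ _) h2'
  refine ⟨h1, h2, ?_, fun h => ⟨n - s - 1, h, ?_⟩, ?_⟩
  · rintro ⟨m, hm, ω, E, hω, h0, hind⟩
    exact kappa_lt hy hn (Nat.sub_le _ _) h2 hm hω h0 hind
  · rwa [show n - s - 1 + 1 = n - s by omega]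
  · intro h3 hpsef hq
    rw [show n - s = 1 by omega] at h2
    obtain ⟨m, hm, ω, hω0, hω⟩ := NV.nonvanishing hy hn hn0 hD.2 hpsef h2 hq
    exact ⟨⟨m, hm, ω, hω0, hω⟩, abundance_zero hy hn hn0 hD h2 hm hω hω0⟩
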