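import Pool.Agent.N110.CC.K

/-!
Pairs on varieties with an abelian group of pseudo-automorphisms or automorphisms of maximal rank.
-/

set_option autoImplicit false

open FF Pool.Agent.W602.GT Pool.Agent.Y172 Pool.Agent.R887 Pool.Agent.N110 Pool.Agent.N110.CC

/-- Let `X` be a normal projective variety of dimension `n ≥ 1`, with generic point `y`. Let the
vectors `c P` be the classes of the prime divisors in `N¹(X) = ℤ ^ (r + 1)`, `r ≥ 1` (if `X` is
`ℚ`-factorial then `r + 1` is the Picard number of `X`). Let `ℤ ^ r` act on `X` by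
pseudo-automorphisms `f_v`, given by the automorphisms `φ v = f_v^*` of the function field, and
suppose that `f_v` has positive entropy (the first dynamical degree is greater than `1`) for all
`v ≠ 0`. So the rank of the group is the Picard number of `X` minus one, the greatest possible value.

Then for every effective `ℚ`-divisor `Δ` on `X` the divisor `K_X + Δ` is pseudo-effective, and it is
numerically trivial (`- (K_X + Δ)` is pseudo-effective, too) or big; the canonical divisor `K_X`
itself is numerically trivial. If the irregularity of `X` is zero then `m K_X ~ 0` for some `m ≥ 1`.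
If, moreover, the maps `f_v` are automorphisms, then for every effective `ℚ`-divisor `Δ` on `X` the
divisor `K_X + Δ` is torsion (`m (K_X + Δ) ~ 0` for some `m ≥ 1`) or ample; in particular it is nef
and semiample, and `(X, Δ)` is its own minimal model. -/
theorem Pool.Agent.Results.MP_a27c81_ag.MaximalRankModels.result
    {K : Type} [Field K] [Algebra ℂ K] {N n r : ℕ} {y : Fin (N + 1) → K} (hy : NormalModel y)
    (hn : Algebra.trdeg ℂ K = n) (hn0 : 0 < n) (hr : 0 < r)
    {c : Place ℂ K → Fin (r + 1) → ℤ} (hc : PicardBasis y c)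
    {φ : (Fin r → ℤ) → (K ≃ₐ[ℂ] K)} (hφ : ∀ u v, φ (u + v) = φ u * φ v)
    (hps : ∀ v, PseudoAut (φ v) y) (hent : ∀ v, v ≠ 0 → 1 < dynDegree (φ v) y n 1) :
    (∀ Δ, Effective y Δ → LogPsef y n Δ ∧ (LogAntiPsef y n Δ ∨ LogBig y n Δ)) ∧
    LogAntiPsef y n 0 ∧
    (IrregularityZero y → LogTorsion y n 0 ∧ ((∀ v, IsAut (φ v) y) →
      ∀ Δ, Effective y Δ → LogTorsion y n Δ ∨ LogAmple y n Δ)) :=
  models hy hn hn0 hr hc hφ hps hent
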