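import Pool.Agent.N115.JS.Def

/-!
MP_a27c81_ag, Q1: log canonical divisors of pairs on the varieties with multi-valued maps to the
varieties of the vectors whose `m`-th powers, for instance whose squares, are the values of a
polynomial of degree at most `n` at given constants.

`Corr k L a n r` (`Pool/Agent/N115/JS/Cor.lean`): a rational map with at most `r` values (with
arbitrary branching) from the variety `M` with function field `L` to the variety `X_m`, given by a
point `y` of `X_m` over an extension `E` of `L` of degree at most `r`; its polynomial is written as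
`q ^ m * H`, where `H` has no `m`-fold factors; the coordinates of the reduced map are `y i / q (a i)`.
`SubOf k ξ z`: `z` is the generic point of a closed subvariety of the variety with the generic point
`ξ`. The parts were written by the helpers 115, 966, 835, 701, 664, 603, 849, 530.
-/

set_option autoImplicit false

namespace Pool.Agent.Results.MP_a27c81_ag.MultivaluedPairs

open Pool.Agent.W602.GT (GeneralType coords val IsForm Divisorial IsPluri DerReg)
open Pool.Agent.TH466.QG (StronglyGeneral SubOf)
open Pool.Agent.N115.JS

/-- For all pairs `(X, Δ)`, `X` a normal projective variety with function field `K` (of dimension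
`w`; `D` is the set of the prime divisors of `X`) and `Δ` an effective `ℚ`-divisor (with the
multiplicity `δ v` along `v`), the divisor `K_X + Δ` is big: for some `m ≥ 1` there are `w + 1`
sections of `m (K_X + Δ)`, that is `m`-canonical forms whose values on the vector fields which are
regular along `v` have order at least `- m (δ v)` for all `v` in `D`, whose ratios are algebraically
independent. -/
def AllPairsBig (k : Type) [Field k] (K : Type) [Field K] [Algebra k K] (w : ℕ) : Prop :=
  ∀ D : FF.Place k K → Prop, (∀ v, D v → Divisorial w v) →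
    ∀ δ : FF.Place k K → ℚ, (∀ v, D v → 0 ≤ δ v) →
      ∃ m : ℕ, 1 ≤ m ∧ ∃ ω : Fin (w + 1) → (Fin w → Derivation k K K) → K,
        (∀ j, IsPluri m (ω j)) ∧
        (∀ v, D v → ∀ j X, (∀ i, DerReg v (X i)) → ω j X ≠ 0 → -(m * δ v) ≤ (v.ord (ω j X) : ℚ)) ∧
        ∃ X, ω 0 X ≠ 0 ∧ AlgebraicIndependent k (fun i : Fin w => ω i.succ X / ω 0 X)

/-- The same for the variety with the generic point `ξ` and function field `L`, and for all its
closed subvarieties of positive dimension which are not contained in a certain proper closed
subset. -/
def StrongPairsBig (k : Type) [Field k] {L : Type} [Field L] [Algebra k L] {M : ℕ}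
    (ξ : Fin (M + 1) → L) (w : ℕ) : Prop :=
  AllPairsBig k L w ∧ ∃ R : MvPolynomial (Fin (M + 1)) k, IsForm R ∧ val ξ R ≠ 0 ∧
    ∀ (E : Type) [Field E] [Algebra k E] (d : ℕ) (z : Fin (M + 1) → E), SubOf k ξ z →
      val z R ≠ 0 → 1 ≤ d → Algebra.trdeg k E = d → AllPairsBig k E d

theorem pairs_of_gt {k : Type} [Field k] {K : Type} [Field K] [Algebra k K] {w : ℕ}
    (h : GeneralType k K w) : AllPairsBig k K w := by
  intro D hD δ hδ
  obtain ⟨-, m, hm, ω, hω, hreg, hind⟩ := h
  refine ⟨m, hm, ω, hω, fun v hv j X hX h0 => ?_, hind⟩
  have h1 : (0 : ℚ) ≤ m * δ v := mul_nonneg (Nat.cast_nonneg m) (hδ v hv)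
  rcases hreg v (hD v hv) j X hX with h2 | h2
  · exact absurd h2 h0
  · have h3 : (0 : ℚ) ≤ (v.ord (ω j X) : ℚ) := by exact_mod_cast h2
    linarith

theorem strong_pairs {k : Type} [Field k] {L : Type} [Field L] [Algebra k L] {M : ℕ}
    {ξ : Fin (M + 1) → L} {w : ℕ} (h1 : GeneralType k L w) (h2 : StronglyGeneral k ξ) :
    StrongPairsBig k ξ w := by
  refine ⟨pairs_of_gt h1, ?_⟩
  obtain ⟨R, hR, hR0, h⟩ := h2
  exact ⟨R, hR, hR0, fun E _ _ d z hz hzR hd hE => pairs_of_gt (h E d z hz hzR hd hE)⟩

/-- Let `k` be algebraically closed of characteristic `0` and `f` any family of maps with at most `r`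
values from a projective variety `M` with generic point `ξ` to the varieties `X_m ⊆ P^N`, `m ≥ 2`, of
the points whose `m`-th powers are the values at `a 0, ..., a N` of a polynomial of degree at most
`n`. Let `M ⇢ M₀` be the fibration defined by `f`: the function field of `M₀` is the smallest
subfield of the function field of `M`, algebraically closed in it, over which the values of all
reduced maps are algebraic. Let `dim M₀ ≤ s` and
`4 s r n + (s r n + s r (r - 1) + 1) ^ 2 < 2 (N + 1)`.

(1) If the reduced maps are jointly generically finite then for all pairs `(X, Δ)`, where `Δ ≥ 0` and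
`X` is a normal projective variety birational to `M`, or to a closed subvariety of positive dimension
of `M` which is not contained in a certain proper closed subset, the divisor `K_X + Δ` is big.

(2) In general the same holds for all projective models of `M₀`, whose dimension is at least the
dimension of the image of each reduced map. -/
theorem result {k : Type} [Field k] [CharZero k] [IsAlgClosed k] {N n r s : ℕ} (hr : 1 ≤ r)
    (hs : 1 ≤ s) (hN : Bound N n r s) {a : Fin (N + 1) → k} (ha : Function.Injective a)
    {L : Type} [Field L] [Algebra k L] {M : ℕ} {ξ : Fin (M + 1) → L} (hξ : IsModel k ξ)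
    {ι : Type} (f : ι → Corr k L a n r) {w : ℕ} (hw : Algebra.trdeg k (baseField f) = w)
    (hws : w ≤ s) :
    (JointlyFinite f → StrongPairsBig k ξ w) ∧
    Universal f ∧ HasModel k (baseField f) ∧ (∀ i, Algebra.trdeg k (coords k (f i).red) ≤ w) ∧
    ∀ (M0 : ℕ) (x : Fin (M0 + 1) → baseField f), IsModel k x → StrongPairsBig k x w := by
  obtain ⟨h1, h2, h3, h4, h5, h6⟩ := lang_main hr hs hN ha hξ f hw hws
  exact ⟨fun h => strong_pairs (h6 h).1 (h6 h).2, h1, h2, h4,
    fun M0 x hx => strong_pairs h3 (h5 M0 x hx).1⟩

end Pool.Agent.Results.MP_a27c81_ag.MultivaluedPairs
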