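import Pool.Agent.N145.PL.LG

/-!
# Log pairs dominated by products of open curves: pseudo-effectivity and the Kodaira dimension

Let `C 0, ..., C n` be smooth projective curves over `ℂ` and `B i ⊂ C i` finite sets (they may be
empty), `U i = C i ∖ B i`. Let `γ i` be the logarithmic gonality of `U i` (or a smaller number): every
nonconstant rational function on `C i` which vanishes at all points of `B i` has degree at least
`γ i`. If `B i` is empty, this is the gonality of `C i`; for the projective line without `m ≥ 1` points
it is `m`.

Let `V° = U 0 × ... × U n` and let `V° ⇢ W°` be a dominant rational map of finite degree to a variety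
`W°` which is proper in the sense that a prime divisor over `V°` (on any compactification of any
birational model) has a centre on `V°` if and only if its image has a centre on `W°`; for example any
finite morphism onto a normal variety `W°`. The map need not be related to the curves. Let `W_s` be the
image of `V°` in `W° × C 0 × ... × C (s - 1)`, and let `d s i` be the degree over `W_s` of the image
of `V°` in `W_s × C i`; this is at most the number `d 0 i ≤ deg(V° ⇢ W°)` of different points of
`C i` below a general fibre of `V° ⇢ W°`.

Suppose that for some `s` (for example `s = 0`) `2 d i i < γ i` for all `i < s` and that for all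
`i ≠ j`, `i, j ≥ s`,

`2 d s i < γ i`, or `2 d s j < γ j`, or `2 deg(V° ⇢ W_s) ≤ γ i + γ j - 3`.

In particular this holds if `2 deg(V° ⇢ W°) ≤ γ i + γ j - 3` for all `i ≠ j`, and it holds if
`2 d i i < γ i` for `i < n`; here there is no condition on the curve `C n` and on `B n`. The theorem:

* `W°` is `A¹`-uniruled, or its logarithmic Kodaira dimension is at least `dim W° - 1`;
* the log canonical divisor of a smooth compactification of a resolution of `W°` is pseudo-effective
  if and only if its Kodaira dimension is at least `dim W° - 1`, and if and only if `W°` is not
  `A¹`-uniruled.

Let `(X, D)` be a log canonical pair with `D` reduced such that `X ∖ D` has canonical singularities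
(for example, is smooth) and is such a `W°`, or properly birational to it. On a log resolution
`K_Y + D_Y` is the pullback of `K_X + D` plus an effective divisor. So if `K_X + D` is nef, or
pseudo-effective, then the forms on `Y` give sections of multiples of `K_X + D` and
`κ(X, K_X + D) ≥ dim X - 1`. The theorem decides which of the two outcomes of the minimal model program
is possible for `(X, D)`: the first one if and only if `W°` is not `A¹`-uniruled, and then
`κ(K_X + D) ≥ dim X - 1`; all minimal models, if there are any, have `κ(K + D) ≥ dim X - 1`.

(The theorem was first on the page `MP_bc213e_ag`, where it was replaced by `OpenProductWithCurve`, on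
open varieties dominated by a product `X° × U` with a variety `X°` whose logarithmic canonical forms
separate points. That theorem contains the present one only if the degrees are small for all curves
except one, and not for the single degrees used here.)

Proof. Let `ω i` be differentials on `C i` with at most simple poles at `B i`, regular elsewhere.
The traces on `W°` of the products of their pullbacks are logarithmic canonical forms. By Riemann-Roch
less than `γ i` points of `U i` impose independent conditions on the `ω i`. As in
`MP_97d78d_ag.CurveProductsDichotomy` of this team (the compact case) one compares the fibres over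
two points of `W°` at which the traces are proportional, fixes the coordinates one after the other,
and obtains that the traces generate a field of transcendence degree at least `n`, or that for some
`i` all differentials `ω i` have trace zero on the image in `W° × ∏ j ≠ i, C j` of the fibres of
`V° → ∏ j ≠ i, U j`. The new point is the second case. By base change all logarithmic differentials
of the geometric generic fibre have trace zero. So the image curve is rational, and has only one
point below the boundary: otherwise the pullback of a differential of the third kind with poles at two
of these points would be a logarithmic differential with nonzero trace. Hence `W°` is covered by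
images of the affine line.

The parts on the extension of the constants, on curves without logarithmic differentials and on
`A¹`-uniruledness are due to helper342, helper75 and helper78.
-/

set_option autoImplicit false
set_option linter.overlappingInstances false
set_option maxHeartbeats 4000000
set_option synthInstance.maxHeartbeats 400000

open FF Module Pool.Agent Pool.Agent.W602.GT
open Pool.Agent.W619.PL (IsA1Uniruled)

namespace Pool.Agent.Results.MP_a27c81_ag.OpenCurveProducts

/-- The number `γ` is at most the logarithmic gonality of the open curve with the function field `F`
and the set `B` of points at infinity: all nonconstant rational functions on the projective curve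
which vanish at all points of `B` have degree at least `γ`. -/
def LeLogGonality (γ : ℕ) (F : Type) [Field F] [Algebra ℂ F] (B : Set (Place ℂ F)) : Prop :=
  ∀ y : F, Transcendental ℂ y → (∀ P ∈ B, 0 < P.ord y) →
    γ ≤ finrank (IntermediateField.adjoin ℂ {y}) F

variable {K : Type} [Field K] [Algebra ℂ K] {n : ℕ}

/-- The place `Q` of the function field `K` of the product `V` of the curves lies over a point in
`B i` for some `i`: it has no centre on the product `V°` of the open curves. -/
def Boundary {F : Fin n → IntermediateField ℂ K} (B : ∀ i, Set (Place ℂ (F i)))
    (Q : Place ℂ K) : Prop :=
  ∃ i, ∃ p ∈ B i, ∃ e : ℕ, 0 < e ∧ ∀ f : F i, Q.ord (f : K) = e * p.ord f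

/-- The set `BW` of places of the function field `L` of `W` is the boundary of the image of `V°`: for
all places `Q` of `K` over a place `P` of `L`, `P` is in `BW` if and only if `Q` has no centre
on `V°`. -/
def IsImageBoundary {F : Fin n → IntermediateField ℂ K} (B : ∀ i, Set (Place ℂ (F i)))
    (L : Type) [Field L] [Algebra ℂ L] [Algebra L K] (BW : Place ℂ L → Prop) : Prop :=
  ∀ (P : Place ℂ L) (Q : Place ℂ K) (e : ℕ), 0 < e →
    (∀ f : L, Q.ord (algebraMap L K f) = e * P.ord f) → (BW P ↔ Boundary B Q)

/-- The function field of the image `W_s` of `V` in the product of `W` and the first `s` curves. Here
`K` and `L` are the function fields of `V` and `W`, and `F i` is the one of the `i`-th curve. -/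
noncomputable def Img (F : Fin n → IntermediateField ℂ K) (L : Type) [Field L] [Algebra L K]
    (s : ℕ) : IntermediateField L K :=
  IntermediateField.adjoin L {z | ∃ l : Fin n, l.val < s ∧ z ∈ F l}

/-- The degree over `W_s` of the image of `V` in the product of `W_s` and the `i`-th curve. -/
noncomputable def deg (F : Fin n → IntermediateField ℂ K) (L : Type) [Field L] [Algebra L K]
    (s : ℕ) (i : Fin n) : ℕ :=
  finrank (Img F L s) (IntermediateField.adjoin (Img F L s) (F i : Set K))

/-- **Nonvanishing for log pairs dominated by products of open curves.** Let `K` be the function field
of a product `V` of `n + 1` curves, i.e. `K` is the compositum of the function fields `F i` of the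
curves and has transcendence degree `n + 1`, let `B i` be a finite set of points of the `i`-th
curve, let `γ i` be at most the logarithmic gonality of the complement of `B i`, and let `L ⊆ K` be
the function field of a variety `W` such that the extension is finite. Let `W°` be an open variety
with function field `L` and boundary `BW` (the places of `L` without centre on `W°`) which is the
image of the product `V°` of the open curves under a proper map. Suppose that for all `i < s` (the
curves are numbered from `0` to `n`) twice the degree over `W_i` of the image of `V` in the product
of `W_i` and the `i`-th curve is less than `γ i`. Suppose that for any two other curves with the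
numbers `i`, `j` twice the degree over `W_s` of the image in the product of `W_s` and one of these
curves is less than the number `γ i` or `γ j` of this curve, or twice the degree of `V` over `W_s` is
at most `γ i + γ j - 3`. Then the following are equivalent: the log canonical divisor of `W°` is
pseudo-effective; `κ(W°) ≥ n = dim W° - 1` for the logarithmic Kodaira dimension; `W°` is not
`A¹`-uniruled. -/
theorem result [Algebra.EssFiniteType ℂ K] (hK : Algebra.trdeg ℂ K = (n + 1 : ℕ))
    (F : Fin (n + 1) → IntermediateField ℂ K) [∀ i, IsFF ℂ (F i)] (hF : ⨆ i, F i = ⊤)
    (B : ∀ i, Set (Place ℂ (F i))) (hB : ∀ i, (B i).Finite)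
    {γ : Fin (n + 1) → ℕ} (hγ : ∀ i, LeLogGonality (γ i) (F i) (B i)) (L : Type) [Field L]
    [Algebra ℂ L] [Algebra L K] [IsScalarTower ℂ L K] [FiniteDimensional L K]
    (BW : Place ℂ L → Prop) (hBW : IsImageBoundary B L BW) (s : ℕ)
    (hs : ∀ i : Fin (n + 1), i.val < s → 2 * deg F L i i < γ i)
    (hpair : ∀ i j : Fin (n + 1), s ≤ i.val → s ≤ j.val → i ≠ j →
      2 * deg F L s i < γ i ∨ 2 * deg F L s j < γ j ∨
        2 * finrank (Img F L s) K + 3 ≤ γ i + γ j) :
    [Psef ℂ L (n + 1) BW, KodGe ℂ L (n + 1) BW n, ¬ IsA1Uniruled ℂ L (n + 1) BW].TFAE := by
  classical
  have hImg : ∀ s, Img F L s = N145.PC.MF F L (N145.PC.Js (n + 1) s) := by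
    intro s
    unfold Img N145.PC.MF N145.PC.MJ
    congr 1
    ext z
    simp only [Set.mem_ofPred_eq, Set.mem_iUnion, N145.PC.mem_Js, Set.mem_range, exists_prop]
    constructor
    · rintro ⟨l, hl, hz⟩
      exact ⟨l, hl, ⟨z, hz⟩, rfl⟩
    · rintro ⟨l, hl, z, rfl⟩
      exact ⟨l, hl, z.2⟩
  have hdeg : ∀ s i, deg F L s i = finrank (N145.PC.MF F L (N145.PC.Js (n + 1) s))
      (IntermediateField.adjoin (N145.PC.MF F L (N145.PC.Js (n + 1) s)) (F i : Set K)) := by
    intro s i
    unfold deg
    rw [hImg]
  refine N145.PL.dichotomy hF hK hB (fun P Q e h => ?_) hγ (s := s)
    (fun l hl => by rw [← hdeg]; exact hs l hl) (fun i j hi hj hij => ?_)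
  · rw [hBW P Q e h.1 h.2]
    rfl
  · rw [← hdeg, ← hdeg, ← hImg]
    exact hpair i j hi hj hij

end Pool.Agent.Results.MP_a27c81_ag.OpenCurveProducts
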